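import Pool.Agent.H28.GU.TargetsC

/-!
# The box Cauchy-Schwarz inequality
-/

set_option autoImplicit false

open Finset

namespace Pool.Agent.H91.GU

open Pool.Agent.H28.GU

/-- Sums over vectors by the first coordinate. -/
theorem sum_cons {G M : Type} [Fintype G] [AddCommMonoid M] (d : ℕ)
    (F : (Fin (d + 1) → G) → M) :
    ∑ s : Fin (d + 1) → G, F s = ∑ a : G, ∑ s : Fin d → G, F (Fin.cons a s) := by
  rw [← (Fin.consEquiv (fun _ : Fin (d + 1) => G)).sum_comp, Fintype.sum_prod_type]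
  rfl

/-- The Gowers norms of the products `w x * w (x + h)`. -/
theorem Gw_succ {q : ℕ} [NeZero q] (d : ℕ) (w : ZMod q → ℝ) :
    Gw (d + 1) w = ∑ h : ZMod q, Gw d (fun x => w x * w (x + h)) := by
  unfold Gw
  rw [sum_cons]
  rfl

/-- The norm of order `0` is the sum. -/
theorem Gw_zero {q : ℕ} [NeZero q] (w : ZMod q → ℝ) : Gw 0 w = ∑ n, w n := by
  unfold Gw
  rw [Fintype.sum_unique]
  rfl

/-- The norm of order `1` is the square of the sum. -/
theorem Gw_one {q : ℕ} [NeZero q] (w : ZMod q → ℝ) : Gw 1 w = (∑ n, w n) ^ 2 := by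
  rw [Gw_succ]
  have h1 : ∀ h : ZMod q, Gw 0 (fun x => w x * w (x + h)) = ∑ n, w n * w (n + h) :=
    fun h => Gw_zero _
  rw [Finset.sum_congr rfl (fun h _ => h1 h), Finset.sum_comm, sq, Finset.sum_mul]
  refine Finset.sum_congr rfl (fun n _ => ?_)
  rw [← Finset.mul_sum]
  congr 1
  exact Equiv.sum_comp (Equiv.addLeft n) w

/-- The base case. -/
theorem BC_one {q : ℕ} [NeZero q] (w : ZMod q → ℝ) (b : Fin 1 → ZMod q → (Fin 1 → ZMod q) → ℂ)
    (hb : ∀ i n s, ‖b i n s‖ ≤ 1) (hi : ∀ i n s t, b i n (Function.update s i t) = b i n s) :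
    ‖∑ n : ZMod q, ∑ s : Fin 1 → ZMod q, ((w (n + ∑ i, s i) : ℝ) : ℂ) * ∏ i, b i n s‖ ^ 2 ≤
      (q : ℝ) ^ 2 * Gw 1 w := by
  have h0 : ∀ n s, ∏ i, b i n s = b 0 n (fun _ => 0) := by
    intro n s
    rw [Fin.prod_univ_one, ← hi 0 n s 0]
    congr 1
    funext j
    rw [Subsingleton.elim j 0, Function.update_self]
  have h1 : ∀ n : ZMod q, ∑ s : Fin 1 → ZMod q, ((w (n + ∑ i, s i) : ℝ) : ℂ) * ∏ i, b i n s =
      b 0 n (fun _ => 0) * ((∑ x, w x : ℝ) : ℂ) := by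
    intro n
    rw [sum_cons]
    have : ∀ a : ZMod q, ∑ s : Fin 0 → ZMod q,
        ((w (n + ∑ i, (Fin.cons a s : Fin 1 → ZMod q) i) : ℝ) : ℂ) *
          ∏ i, b i n (Fin.cons a s : Fin 1 → ZMod q) =
        ((w (n + a) : ℝ) : ℂ) * b 0 n (fun _ => 0) := by
      intro a
      rw [Fintype.sum_unique, h0, Fin.sum_univ_one, Fin.cons_zero]
    rw [Finset.sum_congr rfl (fun a _ => this a), ← Finset.sum_mul, mul_comm]
    congr 1
    rw [Complex.ofReal_sum]
    exact Equiv.sum_comp (Equiv.addLeft n) (fun x => ((w x : ℝ) : ℂ))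
  rw [Finset.sum_congr rfl (fun n _ => h1 n), ← Finset.sum_mul, norm_mul, mul_pow]
  have h2 : ‖∑ n : ZMod q, b 0 n (fun _ => 0)‖ ≤ q := by
    refine (norm_sum_le _ _).trans ?_
    refine (Finset.sum_le_sum (fun n _ => hb 0 n _)).trans ?_
    rw [Finset.sum_const, Finset.card_univ, ZMod.card, nsmul_eq_mul, mul_one]
  have h3 : ‖((∑ x, w x : ℝ) : ℂ)‖ ^ 2 = Gw 1 w := by
    rw [Complex.norm_real, Real.norm_eq_abs, sq_abs, Gw_one]
  rw [h3]
  have h4 : 0 ≤ Gw 1 w := by rw [← h3]; positivity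
  exact mul_le_mul_of_nonneg_right (pow_le_pow_left₀ (norm_nonneg _) h2 2) h4

/-- Expansion of the square of a sum over `ZMod q`. -/
theorem sq_expand {q : ℕ} [NeZero q] (F : ZMod q → ℂ) :
    ((‖∑ a, F a‖ ^ 2 : ℝ) : ℂ) = ∑ h, ∑ a, F a * (starRingEnd ℂ) (F (a + h)) := by
  rw [Complex.ofReal_pow, ← Complex.mul_conj', map_sum, Finset.sum_mul_sum, Finset.sum_comm]
  rw [Finset.sum_comm]
  rw [Finset.sum_comm (s := (Finset.univ : Finset (ZMod q)))
    (f := fun h a => F a * (starRingEnd ℂ) (F (a + h)))]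
  refine Finset.sum_congr rfl (fun a _ => ?_)
  exact (Equiv.sum_comp (Equiv.addLeft a) (fun b => F a * (starRingEnd ℂ) (F b))).symm

/-- **Row BC.** -/
theorem pf_BC : T_BC := by
  intro d q _ w b hd
  obtain ⟨d, rfl⟩ : ∃ e, d = e + 1 := ⟨d - 1, by omega⟩
  clear hd
  induction d generalizing w with
  | zero =>
    intro hb hi
    have := BC_one w b hb hi
    simpa using this
  | succ d ih =>
    intro hb hi
    have hqR : (0 : ℝ) < q := by exact_mod_cast Nat.pos_of_ne_zero (NeZero.ne q)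
    -- the inner sums
    let A : ZMod q → (Fin (d + 1) → ZMod q) → ZMod q → ℂ := fun n s a =>
      ((w (n + (a + ∑ i, s i)) : ℝ) : ℂ) * ∏ i : Fin (d + 1), b i.succ n (Fin.cons a s)
    let J : ZMod q → ZMod q → ℂ := fun h a =>
      ∑ n, ∑ s : Fin (d + 1) → ZMod q, A n s a * (starRingEnd ℂ) (A n s (a + h))
    have h0 : ∀ n (s : Fin (d + 1) → ZMod q) a, b 0 n (Fin.cons a s) = b 0 n (Fin.cons 0 s) := by
      intro n s a
      rw [← hi 0 n (Fin.cons a s) 0, Fin.update_cons_zero]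
    have h1 : ∑ n : ZMod q, ∑ s : Fin (d + 1 + 1) → ZMod q,
        ((w (n + ∑ i, s i) : ℝ) : ℂ) * ∏ i, b i n s =
        ∑ n : ZMod q, ∑ s : Fin (d + 1) → ZMod q, b 0 n (Fin.cons 0 s) * ∑ a, A n s a := by
      refine Finset.sum_congr rfl (fun n _ => ?_)
      rw [sum_cons, Finset.sum_comm]
      refine Finset.sum_congr rfl (fun s _ => ?_)
      rw [Finset.mul_sum]
      refine Finset.sum_congr rfl (fun a _ => ?_)
      rw [Fin.prod_univ_succ, h0, Fin.sum_univ_succ, Fin.cons_zero]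
      show _ = b 0 n (Fin.cons 0 s) * (((w (n + (a + ∑ i, s i)) : ℝ) : ℂ) *
        ∏ i : Fin (d + 1), b i.succ n (Fin.cons a s))
      have e1 : ∑ i : Fin (d + 1), (Fin.cons a s : Fin (d + 1 + 1) → ZMod q) i.succ =
          ∑ i, s i := Finset.sum_congr rfl (fun i _ => by rw [Fin.cons_succ])
      rw [e1]
      ring
    have h2 : ‖∑ n : ZMod q, ∑ s : Fin (d + 1 + 1) → ZMod q,
        ((w (n + ∑ i, s i) : ℝ) : ℂ) * ∏ i, b i n s‖ ^ 2 ≤
        (q : ℝ) ^ (d + 2) * ∑ h, ∑ a, ‖J h a‖ := by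
      rw [h1]
      have g1 : ‖∑ n : ZMod q, ∑ s : Fin (d + 1) → ZMod q, b 0 n (Fin.cons 0 s) * ∑ a, A n s a‖ ≤
          ∑ z : ZMod q × (Fin (d + 1) → ZMod q), ‖∑ a, A z.1 z.2 a‖ := by
        rw [Fintype.sum_prod_type]
        refine (norm_sum_le _ _).trans (Finset.sum_le_sum (fun n _ => ?_))
        refine (norm_sum_le _ _).trans (Finset.sum_le_sum (fun s _ => ?_))
        rw [norm_mul]
        exact mul_le_of_le_one_left (norm_nonneg _) (hb 0 n _)
      have g2 : (∑ z : ZMod q × (Fin (d + 1) → ZMod q), ‖∑ a, A z.1 z.2 a‖) ^ 2 ≤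
          (q : ℝ) ^ (d + 2) * ∑ z : ZMod q × (Fin (d + 1) → ZMod q),
            ‖∑ a, A z.1 z.2 a‖ ^ 2 := by
        refine sq_sum_le_card_mul_sum_sq.trans (le_of_eq ?_)
        congr 1
        rw [Finset.card_univ, Fintype.card_prod, Fintype.card_fun, ZMod.card, Fintype.card_fin]
        push_cast
        ring
      have g3 : ((∑ z : ZMod q × (Fin (d + 1) → ZMod q), ‖∑ a, A z.1 z.2 a‖ ^ 2 : ℝ) : ℂ) =
          ∑ h, ∑ a, J h a := by
        rw [Fintype.sum_prod_type, Complex.ofReal_sum]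
        have e1 : ∀ n : ZMod q, ((∑ s : Fin (d + 1) → ZMod q, ‖∑ a, A n s a‖ ^ 2 : ℝ) : ℂ) =
            ∑ s : Fin (d + 1) → ZMod q, ∑ h, ∑ a,
              A n s a * (starRingEnd ℂ) (A n s (a + h)) := by
          intro n
          rw [Complex.ofReal_sum]
          exact Finset.sum_congr rfl (fun s _ => sq_expand _)
        rw [Finset.sum_congr rfl (fun n _ => e1 n)]
        have e2 : ∀ n : ZMod q, ∑ s : Fin (d + 1) → ZMod q, ∑ h, ∑ a,
              A n s a * (starRingEnd ℂ) (A n s (a + h)) =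
            ∑ h, ∑ a, ∑ s : Fin (d + 1) → ZMod q,
              A n s a * (starRingEnd ℂ) (A n s (a + h)) := by
          intro n
          rw [Finset.sum_comm]
          exact Finset.sum_congr rfl (fun h _ => Finset.sum_comm)
        rw [Finset.sum_congr rfl (fun n _ => e2 n), Finset.sum_comm]
        refine Finset.sum_congr rfl (fun h _ => ?_)
        rw [Finset.sum_comm]
      have g4 : ∑ z : ZMod q × (Fin (d + 1) → ZMod q), ‖∑ a, A z.1 z.2 a‖ ^ 2 ≤
          ∑ h, ∑ a, ‖J h a‖ := by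
        have e1 : ∑ z : ZMod q × (Fin (d + 1) → ZMod q), ‖∑ a, A z.1 z.2 a‖ ^ 2 =
            ‖((∑ z : ZMod q × (Fin (d + 1) → ZMod q), ‖∑ a, A z.1 z.2 a‖ ^ 2 : ℝ) : ℂ)‖ := by
          rw [Complex.norm_real, Real.norm_eq_abs, abs_of_nonneg]
          positivity
        rw [e1, g3]
        refine (norm_sum_le _ _).trans (Finset.sum_le_sum (fun h _ => ?_))
        exact norm_sum_le _ _
      calc _ ≤ (∑ z : ZMod q × (Fin (d + 1) → ZMod q), ‖∑ a, A z.1 z.2 a‖) ^ 2 :=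
            pow_le_pow_left₀ (norm_nonneg _) g1 2
        _ ≤ _ := g2
        _ ≤ _ := mul_le_mul_of_nonneg_left g4 (by positivity)
    have h3 : ∀ h a, ‖J h a‖ ^ (2 ^ (d + 1)) ≤
        (q : ℝ) ^ ((d + 1 + 1) * (2 ^ (d + 1) - 1)) * Gw (d + 1) (fun x => w x * w (x + h)) := by
      intro h a
      have e1 : J h a = ∑ n : ZMod q, ∑ s : Fin (d + 1) → ZMod q,
          (((fun x => w x * w (x + h)) (n + ∑ i, s i) : ℝ) : ℂ) *
            ∏ i : Fin (d + 1), (b i.succ (n - a) (Fin.cons a s) *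
              (starRingEnd ℂ) (b i.succ (n - a) (Fin.cons (a + h) s))) := by
        show ∑ n, ∑ s : Fin (d + 1) → ZMod q, A n s a * (starRingEnd ℂ) (A n s (a + h)) = _
        rw [← Equiv.sum_comp (Equiv.subRight a) (fun n => ∑ s : Fin (d + 1) → ZMod q,
          A n s a * (starRingEnd ℂ) (A n s (a + h)))]
        refine Finset.sum_congr rfl (fun n _ => Finset.sum_congr rfl (fun s _ => ?_))
        show (((w (n - a + (a + ∑ i, s i)) : ℝ) : ℂ) *
            ∏ i : Fin (d + 1), b i.succ (n - a) (Fin.cons a s)) *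
          (starRingEnd ℂ) (((w (n - a + (a + h + ∑ i, s i)) : ℝ) : ℂ) *
            ∏ i : Fin (d + 1), b i.succ (n - a) (Fin.cons (a + h) s)) =
          ((w (n + ∑ i, s i) * w (n + ∑ i, s i + h) : ℝ) : ℂ) * _
        rw [show n - a + (a + ∑ i, s i) = n + ∑ i, s i by ring,
          show n - a + (a + h + ∑ i, s i) = n + ∑ i, s i + h by ring, map_mul,
          Complex.conj_ofReal, map_prod, Finset.prod_mul_distrib, Complex.ofReal_mul]
        ring
      rw [e1]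
      refine ih (fun x => w x * w (x + h)) (fun i n s => b i.succ (n - a) (Fin.cons a s) *
              (starRingEnd ℂ) (b i.succ (n - a) (Fin.cons (a + h) s))) ?_ ?_
      · intro i n s
        rw [norm_mul, RCLike.norm_conj]
        exact mul_le_one₀ (hb _ _ _) (norm_nonneg _) (hb _ _ _)
      · intro i n s t
        show b i.succ (n - a) (Fin.cons a (Function.update s i t)) *
          (starRingEnd ℂ) (b i.succ (n - a) (Fin.cons (a + h) (Function.update s i t))) = _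
        rw [Fin.cons_update, Fin.cons_update, hi, hi]
    have h4 : (∑ h, ∑ a, ‖J h a‖) ^ (2 ^ (d + 1)) ≤
        ((q : ℝ) ^ 2) ^ (2 ^ (d + 1) - 1) * ∑ h, ∑ a, ‖J h a‖ ^ (2 ^ (d + 1)) := by
      have e1 := pow_sum_le_card_mul_sum_pow (s := (Finset.univ : Finset (ZMod q × ZMod q)))
        (f := fun z => ‖J z.1 z.2‖) (fun _ _ => norm_nonneg _) (2 ^ (d + 1) - 1)
      have e2 : 2 ^ (d + 1) - 1 + 1 = 2 ^ (d + 1) :=
        Nat.sub_add_cancel (Nat.one_le_pow _ _ (by norm_num))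
      rw [e2, Finset.card_univ, Fintype.card_prod, ZMod.card, Fintype.sum_prod_type,
        Fintype.sum_prod_type] at e1
      have e3 : ((q * q : ℕ) : ℝ) = (q : ℝ) ^ 2 := by push_cast; ring
      rw [e3] at e1
      exact e1
    have h5 : ∑ h, ∑ a, ‖J h a‖ ^ (2 ^ (d + 1)) ≤
        (q : ℝ) ^ ((d + 1 + 1) * (2 ^ (d + 1) - 1)) * (q * Gw (d + 1 + 1) w) := by
      rw [Gw_succ, Finset.mul_sum, Finset.mul_sum]
      refine Finset.sum_le_sum (fun h _ => ?_)
      refine (Finset.sum_le_sum (fun a _ => h3 h a)).trans (le_of_eq ?_)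
      rw [Finset.sum_const, Finset.card_univ, ZMod.card, nsmul_eq_mul]
      ring
    have hP : 1 ≤ 2 ^ (d + 1) := Nat.one_le_pow _ _ (by norm_num)
    have h6 : (d + 2) * 2 ^ (d + 1) + 2 * (2 ^ (d + 1) - 1) +
        ((d + 1 + 1) * (2 ^ (d + 1) - 1) + 1) = (d + 1 + 1 + 1) * (2 ^ (d + 1 + 1) - 1) := by
      obtain ⟨r, hr⟩ : ∃ r, 2 ^ (d + 1) = r + 1 := ⟨2 ^ (d + 1) - 1, by omega⟩
      have e1 : 2 ^ (d + 1 + 1) - 1 = 2 * r + 1 := by
        rw [pow_succ, hr]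
        omega
      rw [e1, hr, Nat.add_sub_cancel]
      ring
    calc ‖∑ n : ZMod q, ∑ s : Fin (d + 1 + 1) → ZMod q,
          ((w (n + ∑ i, s i) : ℝ) : ℂ) * ∏ i, b i n s‖ ^ (2 ^ (d + 1 + 1))
        = (‖∑ n : ZMod q, ∑ s : Fin (d + 1 + 1) → ZMod q,
          ((w (n + ∑ i, s i) : ℝ) : ℂ) * ∏ i, b i n s‖ ^ 2) ^ (2 ^ (d + 1)) := by
          rw [← pow_mul]
          congr 1
          ring
      _ ≤ ((q : ℝ) ^ (d + 2) * ∑ h, ∑ a, ‖J h a‖) ^ (2 ^ (d + 1)) :=
          pow_le_pow_left₀ (by positivity) h2 _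
      _ = (q : ℝ) ^ ((d + 2) * 2 ^ (d + 1)) * (∑ h, ∑ a, ‖J h a‖) ^ (2 ^ (d + 1)) := by
          rw [mul_pow, ← pow_mul]
      _ ≤ (q : ℝ) ^ ((d + 2) * 2 ^ (d + 1)) * (((q : ℝ) ^ 2) ^ (2 ^ (d + 1) - 1) *
          ((q : ℝ) ^ ((d + 1 + 1) * (2 ^ (d + 1) - 1)) * (q * Gw (d + 1 + 1) w))) := by
          refine mul_le_mul_of_nonneg_left (h4.trans ?_) (by positivity)
          exact mul_le_mul_of_nonneg_left h5 (by positivity)
      _ = (q : ℝ) ^ ((d + 1 + 1 + 1) * (2 ^ (d + 1 + 1) - 1)) * Gw (d + 1 + 1) w := by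
          rw [← h6, pow_add (q : ℝ) _ ((d + 1 + 1) * (2 ^ (d + 1) - 1) + 1),
            pow_add (q : ℝ) ((d + 2) * 2 ^ (d + 1)) _, ← pow_mul, pow_succ (q : ℝ)
            ((d + 1 + 1) * (2 ^ (d + 1) - 1))]
          ring

end Pool.Agent.H91.GU
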