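import Pool.Agent.H28.GU.TargetsC

/-!
# The size of Bohr sets
-/

set_option autoImplicit false

open Finset

namespace Pool.Agent.H91.GU

open Pool.Agent.H28.GU

/-- `nr x` is at most `|i| / q` for each integer `i` which represents `x`. -/
theorem nr_le_of_cast {q : ℕ} [NeZero q] (x : ZMod q) (i : ℤ) (hi : (i : ZMod q) = x) :
    nr x ≤ |(i : ℝ)| / q := by
  unfold nr
  refine div_le_div_of_nonneg_right ?_ (Nat.cast_nonneg q)
  have h1 : x.valMinAbs.natAbs ≤ i.natAbs := by
    refine ZMod.natAbs_min_of_le_div_two q _ _ ?_ (ZMod.natAbs_valMinAbs_le x)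
    rw [ZMod.coe_valMinAbs, hi]
  have h2 : (x.valMinAbs.natAbs : ℤ) ≤ (i.natAbs : ℤ) := by exact_mod_cast h1
  rw [Int.natCast_natAbs, Int.natCast_natAbs] at h2
  exact_mod_cast h2

/-- **Row BS.** -/
theorem pf_BS : T_BS := by
  classical
  intro q _ Λ n hn
  have hq : 0 < q := Nat.pos_of_ne_zero (NeZero.ne q)
  have hqR : (0 : ℝ) < q := by exact_mod_cast hq
  have hnR : (0 : ℝ) < n := by exact_mod_cast hn
  -- the classes
  let F : ZMod q → (Λ → Fin n) := fun h l =>
    ⟨n * (l.1 * h).val / q, by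
      rw [Nat.div_lt_iff_lt_mul hq]
      exact Nat.mul_lt_mul_of_pos_left (ZMod.val_lt _) hn⟩
  have key : (Finset.univ : Finset (ZMod q)).card ≤
      (Boh Λ (1 / (n : ℝ))).card * (Finset.univ : Finset (Λ → Fin n)).card := by
    refine Finset.card_le_mul_card_image_of_maps_to (f := F) (fun _ _ => Finset.mem_univ _) _ ?_
    intro C _
    rcases (Finset.univ.filter (fun h => F h = C)).eq_empty_or_nonempty with h0 | ⟨h₀, hh₀⟩
    · rw [h0]
      exact Nat.zero_le _
    · refine Finset.card_le_card_of_injOn (fun h => h - h₀) ?_ ?_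
      · intro h hh
        have e1 : F h = C := (Finset.mem_filter.mp hh).2
        have e2 : F h₀ = C := (Finset.mem_filter.mp hh₀).2
        refine Finset.mem_coe.mpr (Finset.mem_filter.mpr ⟨Finset.mem_univ _, ?_⟩)
        intro l hl
        have e3 : n * (l * h).val / q = n * (l * h₀).val / q :=
          congrArg Fin.val (congrFun (e1.trans e2.symm) ⟨l, hl⟩)
        have hcast : (((((l * h).val : ℤ) - ((l * h₀).val : ℤ)) : ℤ) : ZMod q) = l * (h - h₀) := by
          push_cast
          rw [ZMod.natCast_zmod_val, ZMod.natCast_zmod_val]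
          ring
        refine (nr_le_of_cast _ _ hcast).trans ?_
        rw [div_le_div_iff₀ hqR hnR, one_mul]
        have a1 := Nat.div_add_mod (n * (l * h).val) q
        have a2 := Nat.div_add_mod (n * (l * h₀).val) q
        have a3 := Nat.mod_lt (n * (l * h).val) hq
        have a4 := Nat.mod_lt (n * (l * h₀).val) hq
        rw [e3] at a1
        have b1 : (n : ℤ) * (((l * h).val : ℤ) - ((l * h₀).val : ℤ)) ≤ q := by
          have : (n : ℤ) * ((l * h).val : ℤ) ≤ (n : ℤ) * ((l * h₀).val : ℤ) + q := by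
            exact_mod_cast (by omega :
              n * (l * h).val ≤ n * (l * h₀).val + q)
          linarith
        have b2 : (n : ℤ) * (((l * h₀).val : ℤ) - ((l * h).val : ℤ)) ≤ q := by
          have : (n : ℤ) * ((l * h₀).val : ℤ) ≤ (n : ℤ) * ((l * h).val : ℤ) + q := by
            exact_mod_cast (by omega :
              n * (l * h₀).val ≤ n * (l * h).val + q)
          linarith
        have b3 : (n : ℝ) * (((l * h).val : ℝ) - ((l * h₀).val : ℝ)) ≤ q := by exact_mod_cast b1
        have b4 : (n : ℝ) * (((l * h₀).val : ℝ) - ((l * h).val : ℝ)) ≤ q := by exact_mod_cast b2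
        push_cast
        rcases abs_cases (((l * h).val : ℝ) - ((l * h₀).val : ℝ)) with ⟨e, _⟩ | ⟨e, _⟩ <;>
          rw [e] <;> nlinarith
      · intro x _ y _ hxy
        exact sub_left_injective hxy
  have hcard : (Finset.univ : Finset (Λ → Fin n)).card = n ^ Λ.card := by
    rw [Finset.card_univ, Fintype.card_fun, Fintype.card_fin, Fintype.card_coe]
  rw [hcard, Finset.card_univ, ZMod.card] at key
  have : (q : ℝ) ≤ ((Boh Λ (1 / (n : ℝ))).card : ℝ) * (n : ℝ) ^ Λ.card := by exact_mod_cast key
  linarith [mul_comm ((Boh Λ (1 / (n : ℝ))).card : ℝ) ((n : ℝ) ^ Λ.card)]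

end Pool.Agent.H91.GU
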